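import Mathlib

set_option autoImplicit false

/-! The Takagi function, binary digits and the digit walk. -/

namespace Pool.Agent.TH325.Tak

open Set Filter Topology

/-- distance to the nearest integer -/
noncomputable def phi (x : ℝ) : ℝ := |x - round x|

/-- the Takagi function -/
noncomputable def T (x : ℝ) : ℝ := ∑' n : ℕ, phi (2 ^ n * x) / 2 ^ n

/-- the `i`-th binary digit (`i = 0` is the first digit after the point) -/
noncomputable def digit (x : ℝ) (i : ℕ) : ℤ := ⌊2 ^ (i + 1) * x⌋ % 2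

/-- number of zeros minus number of ones among the first `j` binary digits -/
noncomputable def D (x : ℝ) (j : ℕ) : ℤ := ∑ i ∈ Finset.range j, (1 - 2 * digit x i)

theorem phi_nonneg (x : ℝ) : 0 ≤ phi x := abs_nonneg _

theorem phi_le (x : ℝ) : phi x ≤ 1 / 2 := abs_sub_round x

theorem phi_lip (x y : ℝ) : |phi x - phi y| ≤ |x - y| := by
  have h : ∀ x y : ℝ, phi x ≤ phi y + |x - y| := by
    intro x y
    unfold phi
    calc |x - round x| ≤ |x - round y| := round_le x (round y)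
      _ = |(y - round y) + (x - y)| := by congr 1; ring
      _ ≤ _ := abs_add_le _ _
  rw [abs_le]
  constructor
  · have := h y x
    rw [abs_sub_comm] at this
    linarith
  · have := h x y
    linarith

theorem phi_cont : Continuous phi := by
  refine (LipschitzWith.of_dist_le_mul (K := 1) fun x y => ?_).continuous
  rw [Real.dist_eq, Real.dist_eq, NNReal.coe_one, one_mul]
  exact phi_lip x y

theorem phi_add_int (x : ℝ) (n : ℤ) : phi (x + n) = phi x := by
  unfold phi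
  rw [round_add_intCast]
  push_cast
  congr 1; ring

theorem phi_low {x : ℝ} (h0 : 0 ≤ x) (h1 : x ≤ 1 / 2) : phi x = x := by
  unfold phi
  rw [abs_sub_round_eq_min]
  have : Int.fract x = x := Int.fract_eq_self.2 ⟨h0, by linarith⟩
  rw [this, min_eq_left (by linarith)]

theorem phi_high {x : ℝ} (h0 : 1 / 2 ≤ x) (h1 : x ≤ 1) : phi x = 1 - x := by
  rcases eq_or_lt_of_le h1 with h | h
  · rw [h, sub_self]
    have := phi_add_int 0 1
    rw [zero_add, Int.cast_one] at this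
    rw [this, phi_low le_rfl (by norm_num)]
  · unfold phi
    rw [abs_sub_round_eq_min]
    have : Int.fract x = x := Int.fract_eq_self.2 ⟨by linarith, h⟩
    rw [this, min_eq_right (by linarith)]

theorem term_le (x : ℝ) (n : ℕ) : phi (2 ^ n * x) / 2 ^ n ≤ 1 / 2 * (1 / 2) ^ n := by
  rw [one_div_pow (2 : ℝ) n, div_eq_mul_one_div]
  exact mul_le_mul_of_nonneg_right (phi_le _) (by positivity)

theorem term_nonneg (x : ℝ) (n : ℕ) : 0 ≤ phi (2 ^ n * x) / 2 ^ n :=
  div_nonneg (phi_nonneg _) (by positivity)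

theorem geo : Summable fun n : ℕ => (1 / 2 : ℝ) * (1 / 2) ^ n :=
  (summable_geometric_of_lt_one (by norm_num) (by norm_num)).mul_left _

theorem summ (x : ℝ) : Summable fun n : ℕ => phi (2 ^ n * x) / 2 ^ n :=
  Summable.of_nonneg_of_le (term_nonneg x) (term_le x) geo

theorem T_nonneg (x : ℝ) : 0 ≤ T x := tsum_nonneg (term_nonneg x)

theorem T_le (x : ℝ) : T x ≤ 1 := by
  have h := (summ x).tsum_le_tsum (term_le x) geo
  have h2 : ∑' n : ℕ, (1 / 2 : ℝ) * (1 / 2) ^ n = 1 := by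
    rw [tsum_mul_left, tsum_geometric_of_lt_one (by norm_num) (by norm_num)]
    norm_num
  rw [h2] at h
  exact h

theorem T_cont : Continuous T := by
  refine continuous_tsum (fun n => ?_) geo (fun n x => ?_)
  · exact (phi_cont.comp (continuous_const.mul continuous_id)).div_const _
  · rw [Real.norm_of_nonneg (term_nonneg x n)]
    exact term_le x n

theorem T_add_int (x : ℝ) (m : ℤ) : T (x + m) = T x := by
  unfold T
  congr 1
  funext n
  have : (2 : ℝ) ^ n * (x + m) = 2 ^ n * x + ((2 ^ n * m : ℤ) : ℝ) := by push_cast; ring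
  rw [this, phi_add_int]

theorem T_half (x : ℝ) : T x = phi x + T (2 * x) / 2 := by
  have h1 := (summ x).tsum_eq_zero_add
  have h2 : T (2 * x) / 2 = ∑' n : ℕ, phi (2 ^ (n + 1) * x) / 2 ^ (n + 1) := by
    unfold T
    rw [← tsum_div_const]
    congr 1
    funext n
    rw [pow_succ, mul_assoc, div_div]
  rw [h2]
  unfold T
  rw [h1]
  simp

/-- the basic step -/
theorem step {s τ : ℝ} {d : ℤ} (hd : d = 0 ∨ d = 1) (h0 : 0 ≤ τ) (h1 : τ ≤ 1) :
    s * ((d + τ) / 2) + T ((d + τ) / 2) =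
      ((s + 1 - 2 * d) * τ + T τ + d * (s + 1)) / 2 := by
  have h2 : T (2 * ((d + τ) / 2)) = T τ := by
    rw [show 2 * (((d : ℝ) + τ) / 2) = τ + (d : ℤ) by ring]
    exact T_add_int τ d
  rw [T_half, h2]
  rcases hd with hd | hd
  · subst hd
    rw [phi_low (by push_cast; linarith) (by push_cast; linarith)]
    push_cast
    ring
  · subst hd
    rw [phi_high (by push_cast; linarith) (by push_cast; linarith)]
    push_cast
    ring

theorem digit_spec (x : ℝ) (i : ℕ) :
    ⌊2 ^ (i + 1) * x⌋ = 2 * ⌊2 ^ i * x⌋ + digit x i ∧ (digit x i = 0 ∨ digit x i = 1) := by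
  have h1 : ((⌊2 ^ i * x⌋ : ℤ) : ℝ) ≤ 2 ^ i * x := Int.floor_le _
  have h2 : 2 ^ i * x < (⌊2 ^ i * x⌋ : ℤ) + 1 := Int.lt_floor_add_one _
  have e : (2 : ℝ) ^ (i + 1) * x = 2 * (2 ^ i * x) := by ring
  have h3 : 2 * ⌊2 ^ i * x⌋ ≤ ⌊2 ^ (i + 1) * x⌋ := by
    apply Int.le_floor.2
    rw [e]; push_cast; linarith
  have h4 : ⌊2 ^ (i + 1) * x⌋ < 2 * ⌊2 ^ i * x⌋ + 2 := by
    apply Int.floor_lt.2
    rw [e]; push_cast; linarith
  unfold digit
  omega

/-- the tail -/
noncomputable def tl (x : ℝ) (j : ℕ) : ℝ := Int.fract (2 ^ j * x)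

theorem tl_nonneg (x : ℝ) (j : ℕ) : 0 ≤ tl x j := Int.fract_nonneg _

theorem tl_lt (x : ℝ) (j : ℕ) : tl x j < 1 := Int.fract_lt_one _

theorem tl_step (x : ℝ) (j : ℕ) : tl x j = ((digit x j : ℝ) + tl x (j + 1)) / 2 := by
  have h := (digit_spec x j).1
  have h' : ((⌊2 ^ (j + 1) * x⌋ : ℤ) : ℝ) = 2 * (⌊2 ^ j * x⌋ : ℤ) + digit x j := by
    rw [h]; push_cast; ring
  unfold tl Int.fract
  rw [h', pow_succ]
  ring

/-- the state -/
noncomputable def Y (x : ℝ) (j : ℕ) : ℝ := D x j * tl x j + T (tl x j)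

theorem D_succ (x : ℝ) (j : ℕ) : D x (j + 1) = D x j + 1 - 2 * digit x j := by
  unfold D
  rw [Finset.sum_range_succ]
  ring

theorem Y_step (x : ℝ) (j : ℕ) : Y x j = (Y x (j + 1) + digit x j * (D x j + 1)) / 2 := by
  have h := step (s := D x j) (τ := tl x (j + 1)) (digit_spec x j).2 (tl_nonneg _ _)
    (tl_lt _ _).le
  rw [← tl_step] at h
  unfold Y
  rw [h, D_succ]
  push_cast
  ring

theorem Y_zero {x : ℝ} (h0 : 0 ≤ x) (h1 : x < 1) : Y x 0 = T x := by
  unfold Y D tl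
  rw [pow_zero, one_mul, Int.fract_eq_self.2 ⟨h0, h1⟩]
  simp

/-- the integer part of the block of digits `j, …, j + m - 1` -/
noncomputable def c (x : ℝ) (j : ℕ) : ℕ → ℤ
  | 0 => 0
  | m + 1 => 2 * c x j m + digit x (j + m)

theorem c_nonneg (x : ℝ) (j m : ℕ) : 0 ≤ c x j m := by
  induction m with
  | zero => exact le_rfl
  | succ m ih =>
    have := (digit_spec x (j + m)).2
    show 0 ≤ 2 * c x j m + digit x (j + m)
    omega

theorem c_lt (x : ℝ) (j m : ℕ) : c x j m < 2 ^ m := by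
  induction m with
  | zero => show (0 : ℤ) < 2 ^ 0; norm_num
  | succ m ih =>
    have := (digit_spec x (j + m)).2
    show 2 * c x j m + digit x (j + m) < 2 ^ (m + 1)
    rw [pow_succ]
    omega

/-- replacing the tail -/
theorem key (x : ℝ) (j m : ℕ) : ∀ τ : ℝ, 0 ≤ τ → τ ≤ 1 →
    D x j * (((c x j m : ℝ) + τ) / 2 ^ m) + T (((c x j m : ℝ) + τ) / 2 ^ m) - Y x j =
      (D x (j + m) * τ + T τ - Y x (j + m)) / 2 ^ m := by
  induction m with
  | zero =>
    intro τ _ _
    show D x j * ((((0 : ℤ) : ℝ) + τ) / 2 ^ 0) + T ((((0 : ℤ) : ℝ) + τ) / 2 ^ 0) - Y x j = _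
    simp
  | succ m ih =>
    intro τ h0 h1
    have hd := (digit_spec x (j + m)).2
    have hd' : (0 : ℝ) ≤ digit x (j + m) ∧ ((digit x (j + m) : ℤ) : ℝ) ≤ 1 := by
      rcases hd with h | h <;> rw [h] <;> norm_num
    have h2 := ih (((digit x (j + m) : ℝ) + τ) / 2) (by linarith [hd'.1]) (by linarith [hd'.2])
    have h3 : ((c x j (m + 1) : ℝ) + τ) / 2 ^ (m + 1) =
        ((c x j m : ℝ) + ((digit x (j + m) : ℝ) + τ) / 2) / 2 ^ m := by
      show (((2 * c x j m + digit x (j + m) : ℤ) : ℝ) + τ) / 2 ^ (m + 1) = _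
      push_cast
      rw [pow_succ]
      field_simp
      ring
    rw [h3, h2, step hd h0 h1, Y_step x (j + m), ← add_assoc j m 1, D_succ]
    push_cast
    rw [pow_succ]
    field_simp
    ring

theorem tl_block (x : ℝ) (j m : ℕ) : tl x j = ((c x j m : ℝ) + tl x (j + m)) / 2 ^ m := by
  induction m with
  | zero =>
    show tl x j = (((0 : ℤ) : ℝ) + tl x (j + 0)) / 2 ^ 0
    simp
  | succ m ih =>
    rw [ih, tl_step x (j + m)]
    show _ = (((2 * c x j m + digit x (j + m) : ℤ) : ℝ) + tl x (j + (m + 1))) / 2 ^ (m + 1)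
    rw [add_assoc j m 1, pow_succ]
    push_cast
    field_simp
    ring

/-- the states are in a lattice -/
theorem Y_int (x : ℝ) (j : ℕ) : ∃ n : ℤ, Y x j = 2 ^ j * Y x 0 - n := by
  induction j with
  | zero => exact ⟨0, by simp⟩
  | succ j ih =>
    obtain ⟨n, hn⟩ := ih
    refine ⟨2 * n + digit x j * (D x j + 1), ?_⟩
    have h := Y_step x j
    push_cast
    rw [pow_succ]
    linarith

theorem Y_lattice {x : ℝ} {q k : ℕ} {z : ℤ} (h : (q : ℝ) * 2 ^ k * Y x 0 = z) {j : ℕ}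
    (hj : k ≤ j) : ∃ w : ℤ, (q : ℝ) * Y x j = w := by
  obtain ⟨n, hn⟩ := Y_int x j
  obtain ⟨i, rfl⟩ := Nat.exists_eq_add_of_le hj
  refine ⟨2 ^ i * z - q * n, ?_⟩
  rw [hn]
  push_cast
  rw [← h, pow_add]
  ring

theorem Y_bounds (x : ℝ) (j : ℕ) : min (D x j : ℝ) 0 ≤ Y x j ∧ Y x j ≤ max (D x j : ℝ) 0 + 1 := by
  have h1 := tl_nonneg x j
  have h2 := tl_lt x j
  have h3 := T_nonneg (tl x j)
  have h4 := T_le (tl x j)
  unfold Y
  constructor
  · rcases le_total 0 (D x j : ℝ) with h | h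
    · rw [min_eq_right h]; positivity
    · rw [min_eq_left h]; nlinarith
  · rcases le_total 0 (D x j : ℝ) with h | h
    · rw [max_eq_left h]; nlinarith
    · rw [max_eq_right h]; nlinarith

end Pool.Agent.TH325.Tak
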