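import Mathlib
import Pool.Agent.TH325.Tak.Basic

set_option autoImplicit false

/-! Repeated states of the digit walk. -/

namespace Pool.Agent.TH325.Tak

open Set Filter Topology

/-- a repeated state gives a rational point of the level set -/
theorem rational_of_repeat {x : ℝ} (h0 : 0 ≤ x) (h1 : x < 1) {j m : ℕ} (hm : 0 < m)
    (hD : D x (j + m) = D x j) (hY : Y x (j + m) = Y x j) :
    ∃ r : ℚ, (r : ℝ) ∈ Icc (0 : ℝ) 1 ∧ T r = T x := by
  have hc0 := c_nonneg x j m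
  have hc1 := c_lt x j m
  have hp : (1 : ℤ) < 2 ^ m := one_lt_pow₀ (by norm_num) (by omega)
  have hpR : (1 : ℝ) < 2 ^ m := by exact_mod_cast hp
  have hc0R : (0 : ℝ) ≤ c x j m := by exact_mod_cast hc0
  have hc1R : (c x j m : ℝ) ≤ 2 ^ m - 1 := by
    have : c x j m ≤ 2 ^ m - 1 := by omega
    exact_mod_cast this
  obtain ⟨τ, hτ⟩ : ∃ τ : ℝ, τ = (c x j m : ℝ) / (2 ^ m - 1) := ⟨_, rfl⟩
  have hpos : (0 : ℝ) < 2 ^ m - 1 := by linarith
  have ht0 : 0 ≤ τ := by rw [hτ]; exact div_nonneg hc0R hpos.le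
  have ht1 : τ ≤ 1 := by rw [hτ, div_le_one hpos]; exact hc1R
  have hfix : ((c x j m : ℝ) + τ) / 2 ^ m = τ := by
    rw [hτ]
    field_simp
    ring
  have h2 := key x j m τ ht0 ht1
  rw [hfix, hD, hY] at h2
  have h3 : (D x j : ℝ) * τ + T τ - Y x j = 0 := by
    have h4 : (D x j * τ + T τ - Y x j) * 2 ^ m = D x j * τ + T τ - Y x j := by
      nth_rw 1 [h2]
      field_simp
    have h5 : (D x j * τ + T τ - Y x j) * (2 ^ m - 1) = 0 := by linarith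
    rcases mul_eq_zero.1 h5 with h | h
    · exact h
    · linarith
  have h4 := key x 0 j τ ht0 ht1
  rw [zero_add, h3, zero_div] at h4
  have hD0 : D x 0 = 0 := by simp [D]
  rw [hD0, Int.cast_zero, zero_mul, zero_add, Y_zero h0 h1] at h4
  refine ⟨((c x 0 j : ℚ) + (c x j m : ℚ) / (2 ^ m - 1)) / 2 ^ j, ?_, ?_⟩
  · push_cast
    rw [← hτ]
    have hc0' := c_nonneg x 0 j
    have hc1' := c_lt x 0 j
    have hc0R' : (0 : ℝ) ≤ c x 0 j := by exact_mod_cast hc0'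
    have hc1R' : (c x 0 j : ℝ) ≤ 2 ^ j - 1 := by
      have : c x 0 j ≤ 2 ^ j - 1 := by omega
      exact_mod_cast this
    constructor
    · positivity
    · rw [div_le_one (by positivity)]; linarith
  · push_cast
    rw [← hτ]
    linarith

/-- the integral state -/
noncomputable def Z (x : ℝ) (q : ℕ) (j : ℕ) : ℤ := ⌊(q : ℝ) * Y x j⌋

theorem Z_spec {x : ℝ} {q k : ℕ} {z : ℤ} (h : (q : ℝ) * 2 ^ k * Y x 0 = z) {j : ℕ}
    (hj : k ≤ j) : (q : ℝ) * Y x j = Z x q j := by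
  obtain ⟨w, hw⟩ := Y_lattice h hj
  unfold Z
  rw [hw, Int.floor_intCast]

theorem state_mem {x : ℝ} {q k M : ℕ} {z : ℤ} (h : (q : ℝ) * 2 ^ k * Y x 0 = z) {j : ℕ}
    (hj : k ≤ j) (hM : |D x j| ≤ M) :
    ((D x j, Z x q j - q * min (D x j) 0) : ℤ × ℤ) ∈
      Finset.Icc (-(M : ℤ)) M ×ˢ Finset.Icc (0 : ℤ) (q * (M + 1)) := by
  have hZ := Z_spec h hj
  obtain ⟨h1, h2⟩ := Y_bounds x j
  have hq : (0 : ℝ) ≤ q := Nat.cast_nonneg q
  have h3 := mul_le_mul_of_nonneg_left h1 hq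
  have h4 := mul_le_mul_of_nonneg_left h2 hq
  rw [hZ] at h3 h4
  have h3' : (q : ℤ) * min (D x j) 0 ≤ Z x q j := by exact_mod_cast h3
  have h4' : Z x q j ≤ (q : ℤ) * (max (D x j) 0 + 1) := by exact_mod_cast h4
  rw [abs_le] at hM
  rw [Finset.mem_product, Finset.mem_Icc, Finset.mem_Icc]
  refine ⟨⟨hM.1, hM.2⟩, by linarith, ?_⟩
  have h5 : max (D x j) 0 + 1 - min (D x j) 0 ≤ (M : ℤ) + 1 := by
    rcases le_total 0 (D x j) with h | h
    · rw [max_eq_left h, min_eq_right h]; linarith [hM.2]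
    · rw [max_eq_right h, min_eq_left h]; linarith [hM.1]
  have h6 : (q : ℤ) * (max (D x j) 0 + 1 - min (D x j) 0) ≤ q * ((M : ℤ) + 1) :=
    mul_le_mul_of_nonneg_left h5 (Int.natCast_nonneg q)
  nlinarith

theorem repeat_of_state {x : ℝ} {q k : ℕ} (hq : 0 < q) {z : ℤ}
    (h : (q : ℝ) * 2 ^ k * Y x 0 = z) {i j : ℕ} (hi : k ≤ i) (hj : k ≤ j)
    (hij : ((D x i, Z x q i - q * min (D x i) 0) : ℤ × ℤ) =
      (D x j, Z x q j - q * min (D x j) 0)) : D x i = D x j ∧ Y x i = Y x j := by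
  rw [Prod.mk.injEq] at hij
  obtain ⟨h1, h2⟩ := hij
  rw [h1] at h2
  have h3 : Z x q i = Z x q j := by linarith
  have h4 : (q : ℝ) * Y x i = q * Y x j := by rw [Z_spec h hi, Z_spec h hj, h3]
  exact ⟨h1, mul_left_cancel₀ (by exact_mod_cast hq.ne') h4⟩

/-- many indices with a small walk give a rational point -/
theorem rational_of_many {x : ℝ} (hx : x ∈ Icc (0 : ℝ) 1) {q k M : ℕ} (hq : 0 < q)
    (hT : ∃ z : ℤ, (q : ℝ) * 2 ^ k * T x = z) (A : Finset ℕ)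
    (hA : ∀ j ∈ A, k ≤ j ∧ |D x j| ≤ M) (hcard : (2 * M + 1) * (q * (M + 1) + 1) < A.card) :
    ∃ r : ℚ, (r : ℝ) ∈ Icc (0 : ℝ) 1 ∧ T r = T x := by
  rcases eq_or_lt_of_le hx.2 with h1 | h1
  · exact ⟨1, by simp, by rw [h1]; simp⟩
  obtain ⟨z, hz⟩ := hT
  rw [← Y_zero hx.1 h1] at hz
  have hcard' : (Finset.Icc (-(M : ℤ)) M ×ˢ Finset.Icc (0 : ℤ) (q * (M + 1))).card < A.card := by
    refine lt_of_eq_of_lt ?_ hcard
    rw [Finset.card_product, Int.card_Icc, Int.card_Icc]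
    have e1 : ((M : ℤ) + 1 - -(M : ℤ)).toNat = 2 * M + 1 := by omega
    have e2 : ((q : ℤ) * (M + 1) + 1 - 0) = ((q * (M + 1) + 1 : ℕ) : ℤ) := by push_cast; ring
    rw [e1, e2, Int.toNat_natCast]
  obtain ⟨i, hi, j, hj, hne, heq⟩ := Finset.exists_ne_map_eq_of_card_lt_of_maps_to hcard'
    (f := fun j => ((D x j, Z x q j - q * min (D x j) 0) : ℤ × ℤ))
    (fun j hj => state_mem hz (hA j hj).1 (hA j hj).2)
  have hrep := repeat_of_state hq hz (hA i hi).1 (hA j hj).1 heq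
  rcases lt_or_gt_of_ne hne with h | h
  · obtain ⟨m, rfl⟩ := Nat.exists_eq_add_of_lt h
    exact rational_of_repeat hx.1 h1 (j := i) (m := m + 1) (by omega) hrep.1.symm hrep.2.symm
  · obtain ⟨m, rfl⟩ := Nat.exists_eq_add_of_lt h
    exact rational_of_repeat hx.1 h1 (j := j) (m := m + 1) (by omega) hrep.1 hrep.2

theorem tl_inj {x : ℝ} (hx : Irrational x) {i j : ℕ} (h : tl x i = tl x j) : i = j := by
  by_contra hne
  wlog hlt : i < j generalizing i j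
  · exact this h.symm (Ne.symm hne) (by omega)
  unfold tl Int.fract at h
  have hp : (2 : ℝ) ^ i < 2 ^ j := pow_lt_pow_right₀ (by norm_num) hlt
  have h1 : x = ((⌊2 ^ j * x⌋ - ⌊2 ^ i * x⌋ : ℤ) : ℝ) / (2 ^ j - 2 ^ i) := by
    rw [eq_div_iff (by linarith)]
    push_cast
    linarith
  apply hx
  refine ⟨((⌊2 ^ j * x⌋ - ⌊2 ^ i * x⌋ : ℤ) : ℚ) / (2 ^ j - 2 ^ i), ?_⟩
  rw [Rat.cast_div]
  push_cast at h1 ⊢
  exact h1.symm

theorem exists_infinite_state {x : ℝ} {q k M : ℕ} (hq : 0 < q) {z : ℤ}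
    (h : (q : ℝ) * 2 ^ k * Y x 0 = z) (hinf : {j | |D x j| ≤ M}.Infinite) :
    ∃ j₀ : ℕ, {j | D x j = D x j₀ ∧ Y x j = Y x j₀}.Infinite := by
  have hinf' : {j | k ≤ j ∧ |D x j| ≤ M}.Infinite := by
    have h1 : {j | |D x j| ≤ M} ⊆ {j | k ≤ j ∧ |D x j| ≤ M} ∪ {j | j < k} := by
      intro j hj
      rcases le_or_gt k j with h | h
      · exact Or.inl ⟨h, hj⟩
      · exact Or.inr h
    intro hfin
    exact hinf ((hfin.union (finite_lt_nat k)).subset h1)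
  by_contra hcon
  push Not at hcon
  apply hinf'
  have hsub : {j | k ≤ j ∧ |D x j| ≤ M} ⊆
      ⋃ v ∈ (↑(Finset.Icc (-(M : ℤ)) M ×ˢ Finset.Icc (0 : ℤ) (q * (M + 1))) : Set (ℤ × ℤ)),
        {j | (k ≤ j ∧ |D x j| ≤ M) ∧
          ((D x j, Z x q j - q * min (D x j) 0) : ℤ × ℤ) = v} := by
    intro j hj
    rw [mem_iUnion₂]
    exact ⟨_, state_mem h hj.1 hj.2, hj, rfl⟩
  refine Finite.subset ((Finset.finite_toSet _).biUnion fun v _ => ?_) hsub
  rcases Set.eq_empty_or_nonempty {j | (k ≤ j ∧ |D x j| ≤ M) ∧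
          ((D x j, Z x q j - q * min (D x j) 0) : ℤ × ℤ) = v} with he | ⟨j₀, hj₀⟩
  · rw [he]; exact finite_empty
  · refine Finite.subset (hcon j₀) ?_
    intro j hj
    exact repeat_of_state hq h hj.1.1 hj₀.1.1 (hj.2.trans hj₀.2.symm)

end Pool.Agent.TH325.Tak
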