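import Mathlib
import Pool.Agent.TH325.Tak.Main

set_option autoImplicit false

/-! A perfect subset of the level set. -/

namespace Pool.Agent.TH325.Tak

open Set Filter Topology

/-- the affine map `τ ↦ (a + τ) / 2 ^ n` returns to the state `(s, y)` -/
def Ret (s y : ℝ) (a : ℤ) (n : ℕ) : Prop :=
  0 ≤ a ∧ a < 2 ^ n ∧ ∀ τ : ℝ, 0 ≤ τ → τ ≤ 1 →
    s * (((a : ℝ) + τ) / 2 ^ n) + T (((a : ℝ) + τ) / 2 ^ n) - y = (s * τ + T τ - y) / 2 ^ n

theorem ret_mem {a : ℤ} {n : ℕ} (h0 : 0 ≤ a) (h1 : a < 2 ^ n) {τ : ℝ} (t0 : 0 ≤ τ) (t1 : τ ≤ 1) :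
    0 ≤ ((a : ℝ) + τ) / 2 ^ n ∧ ((a : ℝ) + τ) / 2 ^ n ≤ 1 := by
  have h0R : (0 : ℝ) ≤ a := by exact_mod_cast h0
  have h1R : (a : ℝ) ≤ 2 ^ n - 1 := by
    have : a ≤ 2 ^ n - 1 := by omega
    exact_mod_cast this
  constructor
  · positivity
  · rw [div_le_one (by positivity)]; linarith

theorem ret_comp {s y : ℝ} {a b : ℤ} {n m : ℕ} (ha : Ret s y a n) (hb : Ret s y b m) :
    Ret s y (a * 2 ^ m + b) (n + m) := by
  obtain ⟨a0, a1, ha⟩ := ha
  obtain ⟨b0, b1, hb⟩ := hb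
  have hp : (0 : ℤ) < 2 ^ m := by positivity
  refine ⟨by positivity, ?_, ?_⟩
  · rw [pow_add]
    have : a + 1 ≤ 2 ^ n := by omega
    nlinarith
  · intro τ t0 t1
    have e : (((a * 2 ^ m + b : ℤ) : ℝ) + τ) / 2 ^ (n + m) =
        ((a : ℝ) + ((b : ℝ) + τ) / 2 ^ m) / 2 ^ n := by
      push_cast
      rw [pow_add]
      field_simp
      ring
    obtain ⟨u0, u1⟩ := ret_mem b0 b1 t0 t1
    rw [e, ha _ u0 u1, hb τ t0 t1, pow_add, div_div, mul_comm ((2 : ℝ) ^ m)]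

theorem ret_block {x s y : ℝ} {j m : ℕ} (h1 : (D x j : ℝ) = s ∧ Y x j = y)
    (h2 : (D x (j + m) : ℝ) = s ∧ Y x (j + m) = y) : Ret s y (c x j m) m := by
  refine ⟨c_nonneg x j m, c_lt x j m, fun τ t0 t1 => ?_⟩
  have h := key x j m τ t0 t1
  rw [h1.1, h1.2, h2.1, h2.2] at h
  exact h

/-- an irrational `x` which visits a state infinitely often has an uncountable level set -/
theorem uncountable_level {x : ℝ} (h0 : 0 ≤ x) (h1 : x < 1) (hx : Irrational x) {j₀ : ℕ}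
    (hinf : {j | D x j = D x j₀ ∧ Y x j = Y x j₀}.Infinite) :
    ¬ {t : ℝ | t ∈ Icc (0 : ℝ) 1 ∧ T t = T x}.Countable := by
  obtain ⟨s, hs⟩ : ∃ s : ℝ, s = D x j₀ := ⟨_, rfl⟩
  obtain ⟨y, hy⟩ : ∃ y : ℝ, y = Y x j₀ := ⟨_, rfl⟩
  obtain ⟨J, hJ⟩ : ∃ J : Set ℕ, J = {j | D x j = D x j₀ ∧ Y x j = Y x j₀} := ⟨_, rfl⟩
  rw [← hJ] at hinf
  have hJs : ∀ j ∈ J, (D x j : ℝ) = s ∧ Y x j = y := by
    intro j hj
    rw [hJ] at hj
    rw [hs, hy, hj.1, hj.2]
    exact ⟨rfl, rfl⟩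
  obtain ⟨A, hA⟩ : ∃ A : Set ℝ, A = {p | ∃ (a : ℤ) (n i : ℕ), Ret s y a n ∧ i ∈ J ∧
    p = ((a : ℝ) + tl x i) / 2 ^ n} := ⟨_, rfl⟩
  have hret0 : Ret s y 0 0 := ⟨le_rfl, by norm_num, fun τ _ _ => by simp⟩
  have hne : (closure A).Nonempty := by
    refine Nonempty.closure ⟨tl x j₀, ?_⟩
    rw [hA]
    exact ⟨0, 0, j₀, hret0, by rw [hJ]; exact ⟨rfl, rfl⟩, by simp⟩
  -- the set is preperfect
  have hpre : Preperfect A := by
    intro p hp
    rw [hA] at hp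
    obtain ⟨a, n, i, hr, hi, rfl⟩ := hp
    rw [accPt_iff_nhds]
    intro U hU
    obtain ⟨ε, hε, hball⟩ := Metric.mem_nhds_iff.1 hU
    obtain ⟨K, hK⟩ := exists_pow_lt_of_lt_one hε (show (1 / 2 : ℝ) < 1 by norm_num)
    obtain ⟨k, hkJ, hk⟩ := hinf.exists_gt (i + K)
    obtain ⟨l, hlJ, hl⟩ := hinf.exists_gt k
    obtain ⟨m, rfl⟩ := Nat.exists_eq_add_of_lt (show i < k by omega)
    obtain ⟨w, hw⟩ : ∃ w, w = m + 1 := ⟨_, rfl⟩
    have hk' : i + m + 1 = i + w := by omega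
    rw [hk'] at hkJ hk hl
    have hb := ret_comp hr (ret_block (hJs i hi) (hJs _ hkJ))
    have hp' : ((a : ℝ) + tl x i) / 2 ^ n =
        (((a * 2 ^ w + c x i w : ℤ) : ℝ) + tl x (i + w)) / 2 ^ (n + w) := by
      rw [tl_block x i w, pow_add]
      push_cast
      field_simp
      ring
    refine ⟨(((a * 2 ^ w + c x i w : ℤ) : ℝ) + tl x l) / 2 ^ (n + w), ⟨hball ?_, ?_⟩, ?_⟩
    · rw [Metric.mem_ball, Real.dist_eq, hp', ← sub_div, add_sub_add_left_eq_sub, abs_div,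
        abs_of_pos (show (0 : ℝ) < 2 ^ (n + w) by positivity)]
      have g1 : |tl x l - tl x (i + w)| ≤ 1 := by
        rw [abs_le]
        constructor <;> linarith [tl_nonneg x l, tl_lt x l, tl_nonneg x (i + w), tl_lt x (i + w)]
      have g2 : (2 : ℝ) ^ K ≤ 2 ^ (n + w) := pow_le_pow_right₀ (by norm_num) (by omega)
      calc |tl x l - tl x (i + w)| / 2 ^ (n + w) ≤ 1 / 2 ^ K :=
            div_le_div₀ zero_le_one g1 (by positivity) g2
        _ = (1 / 2) ^ K := by rw [one_div_pow]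
        _ < ε := hK
    · rw [hA]
      exact ⟨_, _, l, hb, hlJ, rfl⟩
    · rw [hp']
      intro heq
      have g1 : tl x l = tl x (i + w) := by
        have g2 : (2 : ℝ) ^ (n + w) ≠ 0 := by positivity
        field_simp at heq
        linarith
      have g3 := tl_inj hx g1
      omega
  have hperf : Perfect (closure A) := hpre.perfect_closure
  -- it lies in the level set of the state
  have hclosed : IsClosed {t : ℝ | t ∈ Icc (0 : ℝ) 1 ∧ s * t + T t = y} := by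
    have : {t : ℝ | t ∈ Icc (0 : ℝ) 1 ∧ s * t + T t = y} =
        Icc (0 : ℝ) 1 ∩ {t : ℝ | s * t + T t = y} := rfl
    rw [this]
    exact isClosed_Icc.inter (isClosed_eq ((continuous_const.mul continuous_id).add T_cont)
      continuous_const)
  have hsub : closure A ⊆ {t : ℝ | t ∈ Icc (0 : ℝ) 1 ∧ s * t + T t = y} := by
    refine closure_minimal ?_ hclosed
    intro p hp
    rw [hA] at hp
    obtain ⟨a, n, i, ⟨a0, a1, hr⟩, hi, rfl⟩ := hp
    refine ⟨ret_mem a0 a1 (tl_nonneg x i) (tl_lt x i).le, ?_⟩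
    have h2 := hr _ (tl_nonneg x i) (tl_lt x i).le
    have h3 : s * tl x i + T (tl x i) - y = 0 := by
      have h4 := hJs i hi
      unfold Y at h4
      rw [← h4.1, ← h4.2, h4.1]
      rw [← h4.1]
      ring
    rw [h3, zero_div] at h2
    linarith
  obtain ⟨f, hf, _, hfi⟩ := hperf.exists_nat_bool_injection hne
  intro hcount
  have hG : ∀ u : ℕ → Bool, ((c x 0 j₀ : ℝ) + f u) / 2 ^ j₀ ∈
      {t : ℝ | t ∈ Icc (0 : ℝ) 1 ∧ T t = T x} := by
    intro u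
    obtain ⟨⟨u0, u1⟩, hu⟩ := hsub (hf (mem_range_self u))
    refine ⟨ret_mem (c_nonneg x 0 j₀) (c_lt x 0 j₀) u0 u1, ?_⟩
    have h4 := key x 0 j₀ (f u) u0 u1
    have hD0 : D x 0 = 0 := by simp [D]
    rw [zero_add, ← hs, ← hy, hu, sub_self, zero_div, hD0, Int.cast_zero, zero_mul, zero_add,
      Y_zero h0 h1] at h4
    linarith
  have hinj : Function.Injective fun u : ℕ → Bool => ((c x 0 j₀ : ℝ) + f u) / 2 ^ j₀ := by
    intro u v huv
    apply hfi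
    have g2 : (2 : ℝ) ^ j₀ ≠ 0 := by positivity
    have huv' : ((c x 0 j₀ : ℝ) + f u) / 2 ^ j₀ = ((c x 0 j₀ : ℝ) + f v) / 2 ^ j₀ := huv
    rw [div_left_inj' g2] at huv'
    linarith
  have h5 := hcount.preimage_of_injOn (f := fun u : ℕ → Bool => ((c x 0 j₀ : ℝ) + f u) / 2 ^ j₀)
    hinj.injOn
  have h6 : (fun u : ℕ → Bool => ((c x 0 j₀ : ℝ) + f u) / 2 ^ j₀) ⁻¹'
      {t : ℝ | t ∈ Icc (0 : ℝ) 1 ∧ T t = T x} = univ := by
    ext u
    exact ⟨fun _ => trivial, fun _ => hG u⟩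
  rw [h6] at h5
  have h7 : Countable (ℕ → Bool) := countable_univ_iff.1 h5
  obtain ⟨g, hg⟩ := h7.exists_injective_nat
  have h8 : Function.Injective fun S : Set ℕ => g (fun n => by classical exact decide (n ∈ S)) := by
    intro S S' hSS
    have h9 := hg hSS
    ext n
    have h10 := congrFun h9 n
    simpa using h10
  exact Function.cantor_injective _ h8

end Pool.Agent.TH325.Tak
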