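import Mathlib
import Pool.Agent.TH325.Tak.Perf

set_option autoImplicit false

/-! Branching of the digit walk far from zero. -/

namespace Pool.Agent.TH325.Tak

open Set Filter Topology

/-- the maximum of `s t + T t` -/
theorem f_le (s : ℕ) : ∀ t : ℝ, 0 ≤ t → t ≤ 1 → s * t + T t ≤ s + (1 / 2) ^ s := by
  induction s with
  | zero => intro t _ _; have := T_le t; norm_num; linarith
  | succ s ih =>
    intro t t0 t1
    rcases le_total t (1 / 2) with h | h
    · have h1 := step (s := ((s + 1 : ℕ) : ℝ)) (τ := 2 * t) (d := 0) (Or.inl rfl) (by linarith)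
        (by linarith)
      rw [show (((0 : ℤ) : ℝ) + 2 * t) / 2 = t by push_cast; ring] at h1
      rw [h1]
      have h2 := T_le (2 * t)
      push_cast
      rcases Nat.eq_zero_or_pos s with hs | hs
      · subst hs
        norm_num
        nlinarith
      · have h3 : (1 : ℝ) ≤ s := by exact_mod_cast hs
        have h4 : (0 : ℝ) < (1 / 2) ^ (s + 1) := by positivity
        nlinarith
    · have h1 := step (s := ((s + 1 : ℕ) : ℝ)) (τ := 2 * t - 1) (d := 1) (Or.inr rfl)
        (by linarith) (by linarith)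
      rw [show (((1 : ℤ) : ℝ) + (2 * t - 1)) / 2 = t by push_cast; ring] at h1
      rw [h1]
      have h2 := ih (2 * t - 1) (by linarith) (by linarith)
      push_cast
      rw [pow_succ]
      linarith

/-- two solutions with different digits at a state with large `s` -/
theorem branch {x x' : ℝ} {j q s : ℕ} (hq : 0 < q) (hs : D x j = s) (hs' : D x' j = s)
    (hs1 : 1 ≤ s) (hqs : q < 2 ^ (s + 1)) (hY : Y x j = Y x' j) (hd : digit x j = 0)
    (hd' : digit x' j = 1) (hlat : ∃ w : ℤ, (q : ℝ) * Y x j = w) :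
    2 * Y x j = D x j + 1 := by
  obtain ⟨w, hw⟩ := hlat
  have h1 := Y_step x j
  have h2 := Y_step x' j
  rw [hd] at h1
  rw [hd', hs'] at h2
  have hD1 : D x (j + 1) = ((s + 1 : ℕ) : ℤ) := by rw [D_succ, hd, hs]; push_cast; ring
  have h3 : Y x (j + 1) ≤ (s + 1 : ℕ) + (1 / 2) ^ (s + 1) := by
    have := f_le (s + 1) (tl x (j + 1)) (tl_nonneg _ _) (tl_lt _ _).le
    unfold Y
    rw [hD1]
    push_cast at this ⊢
    exact this
  have hD2 : D x' (j + 1) = (s : ℤ) - 1 := by rw [D_succ, hd', hs']; ring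
  have h4 : 0 ≤ Y x' (j + 1) := by
    have := (Y_bounds x' (j + 1)).1
    rw [hD2] at this
    have h5 : (0 : ℝ) ≤ (((s : ℤ) - 1 : ℤ) : ℝ) := by
      have : (0 : ℤ) ≤ (s : ℤ) - 1 := by omega
      exact_mod_cast this
    rw [min_eq_right h5] at this
    exact this
  have h5 : (s : ℝ) + 1 ≤ 2 * Y x j := by
    rw [hY]
    push_cast at h2
    linarith
  have h6 : 2 * Y x j ≤ (s : ℝ) + 1 + (1 / 2) ^ (s + 1) := by
    push_cast at h1 h3
    linarith
  have hqR : (0 : ℝ) < q := by exact_mod_cast hq
  have h7 : (q : ℝ) * (1 / 2) ^ (s + 1) < 1 := by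
    have h8 : (q : ℝ) < 2 ^ (s + 1) := by exact_mod_cast hqs
    rw [one_div_pow, mul_one_div, div_lt_one (by positivity)]
    exact h8
  have h9 : ((q * (s + 1) : ℤ) : ℝ) ≤ ((2 * w : ℤ) : ℝ) := by
    push_cast
    rw [← hw]
    nlinarith
  have h10 : ((2 * w : ℤ) : ℝ) < ((q * (s + 1) + 1 : ℤ) : ℝ) := by
    push_cast
    rw [← hw]
    have := mul_le_mul_of_nonneg_left h6 hqR.le
    linarith
  have h11 : (q * (s + 1) : ℤ) ≤ 2 * w := by exact_mod_cast h9
  have h12 : 2 * w < (q * (s + 1) + 1 : ℤ) := by exact_mod_cast h10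
  have h13 : 2 * w = (q * (s + 1) : ℤ) := by omega
  have h14 : 2 * (w : ℝ) = q * (s + 1) := by exact_mod_cast h13
  rw [← hw] at h14
  rw [hs]
  push_cast
  have h15 : (q : ℝ) * (2 * Y x j) = q * (s + 1) := by linarith
  exact mul_left_cancel₀ hqR.ne' h15

theorem T_zero : T 0 = 0 := by
  have h := T_half 0
  rw [phi_low le_rfl (by norm_num), mul_zero] at h
  linarith

theorem T_one : T 1 = 0 := by
  have h := T_add_int 0 1
  rw [zero_add, Int.cast_one] at h
  rw [h, T_zero]

theorem T_one_half : T (1 / 2) = 1 / 2 := by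
  have h := T_half (1 / 2)
  rw [phi_low (by norm_num) le_rfl, show (2 : ℝ) * (1 / 2) = 1 by norm_num, T_one] at h
  linarith

/-- a branching state gives a rational solution -/
theorem rational_of_branch {x : ℝ} (h0 : 0 ≤ x) (h1 : x < 1) {j : ℕ}
    (h : 2 * Y x j = D x j + 1) : ∃ r : ℚ, (r : ℝ) ∈ Icc (0 : ℝ) 1 ∧ T r = T x := by
  have h4 := key x 0 j (1 / 2) (by norm_num) (by norm_num)
  have hD0 : D x 0 = 0 := by simp [D]
  rw [zero_add, hD0, Int.cast_zero, zero_mul, zero_add, Y_zero h0 h1, T_one_half,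
    show (D x j : ℝ) * (1 / 2) + 1 / 2 - Y x j = 0 by linarith, zero_div] at h4
  refine ⟨((c x 0 j : ℚ) + 1 / 2) / 2 ^ j, ?_, ?_⟩
  · push_cast
    exact ret_mem (c_nonneg x 0 j) (c_lt x 0 j) (by norm_num) (by norm_num)
  · push_cast
    linarith

/-- from the state `(s, s)` the walk goes down -/
theorem descend {x : ℝ} {j s₀ : ℕ} (hs0 : 3 ≤ s₀) (hD : ∀ i, j ≤ i → (s₀ : ℤ) ≤ D x i)
    (hst : Y x j = D x j) : False := by
  have h : ∀ n : ℕ, Y x (j + n) = D x (j + n) ∧ D x (j + n) = D x j - n := by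
    intro n
    induction n with
    | zero => exact ⟨hst, by simp⟩
    | succ n ih =>
      obtain ⟨h1, h2⟩ := ih
      have h3 := Y_step x (j + n)
      have h4 := D_succ x (j + n)
      have h5 : (3 : ℤ) ≤ D x (j + n) := by
        have := hD (j + n) (by omega)
        omega
      have h5R : (3 : ℝ) ≤ D x (j + n) := by exact_mod_cast h5
      rcases (digit_spec x (j + n)).2 with h6 | h6
      · exfalso
        rw [h6] at h3 h4
        have h7 := (Y_bounds x (j + n + 1)).2
        rw [h4] at h7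
        push_cast at h7 h3
        rw [max_eq_left (by linarith)] at h7
        linarith
      · rw [h6] at h3 h4
        rw [← add_assoc]
        push_cast at h3
        constructor
        · rw [h4]; push_cast; linarith
        · rw [h4, h2]; push_cast; ring
  have h1 := (h (D x j).toNat).2
  have h2 := hD j le_rfl
  have h3 := hD (j + (D x j).toNat) (by omega)
  rw [Int.toNat_of_nonneg (by omega)] at h1
  omega

/-- two different points of a level set: the first different digit -/
theorem first_diff {x x' : ℝ} (h0 : 0 ≤ x) (h1 : x < 1) (h0' : 0 ≤ x') (h1' : x' < 1)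
    (hne : x ≠ x') (hT : T x = T x') : ∃ j, digit x j ≠ digit x' j ∧
      (∀ i < j, digit x i = digit x' i) ∧ D x j = D x' j ∧ Y x j = Y x' j := by
  classical
  have hex : ∃ j, digit x j ≠ digit x' j := by
    by_contra hcon
    push Not at hcon
    apply hne
    have hc : ∀ m, c x 0 m = c x' 0 m := by
      intro m
      induction m with
      | zero => rfl
      | succ m ih =>
        show 2 * c x 0 m + digit x (0 + m) = 2 * c x' 0 m + digit x' (0 + m)
        rw [ih, hcon]
    have hx0 : tl x 0 = x := by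
      unfold tl; rw [pow_zero, one_mul, Int.fract_eq_self.2 ⟨h0, h1⟩]
    have hx0' : tl x' 0 = x' := by
      unfold tl; rw [pow_zero, one_mul, Int.fract_eq_self.2 ⟨h0', h1'⟩]
    have hb : ∀ m : ℕ, |x - x'| ≤ (1 / 2) ^ m := by
      intro m
      have e1 := tl_block x 0 m
      have e2 := tl_block x' 0 m
      rw [hx0] at e1
      rw [hx0', ← hc m] at e2
      nth_rw 1 [e1]
      nth_rw 1 [e2]
      rw [← sub_div, add_sub_add_left_eq_sub, abs_div,
        abs_of_pos (show (0 : ℝ) < 2 ^ m by positivity), one_div_pow]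
      refine div_le_div_of_nonneg_right ?_ (by positivity)
      rw [abs_le]
      constructor <;> linarith [tl_nonneg x (0 + m), tl_lt x (0 + m), tl_nonneg x' (0 + m),
        tl_lt x' (0 + m)]
    by_contra hne'
    have hpos : 0 < |x - x'| := abs_pos.2 (sub_ne_zero.2 hne')
    obtain ⟨m, hm⟩ := exists_pow_lt_of_lt_one hpos (show (1 / 2 : ℝ) < 1 by norm_num)
    exact absurd (hb m) (not_le.2 hm)
  have hlt : ∀ i < Nat.find hex, digit x i = digit x' i := fun i hi =>
    not_not.1 (Nat.find_min hex hi)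
  have hDY : ∀ i ≤ Nat.find hex, D x i = D x' i ∧ Y x i = Y x' i := by
    intro i
    induction i with
    | zero =>
      intro _
      exact ⟨by simp [D], by rw [Y_zero h0 h1, Y_zero h0' h1', hT]⟩
    | succ i ih =>
      intro hi
      obtain ⟨e1, e2⟩ := ih (by omega)
      have e3 := hlt i (by omega)
      refine ⟨by rw [D_succ, D_succ, e1, e3], ?_⟩
      have e4 := Y_step x i
      have e5 := Y_step x' i
      rw [← e1, ← e2, ← e3] at e5
      linarith
  exact ⟨Nat.find hex, Nat.find_spec hex, hlt, (hDY _ le_rfl).1, (hDY _ le_rfl).2⟩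

/-- equal integer parts: equal digits -/
theorem digit_eq_of_floor {x x' : ℝ} (N : ℕ) (h : ⌊2 ^ N * x⌋ = ⌊2 ^ N * x'⌋) :
    ∀ i < N, digit x i = digit x' i := by
  induction N with
  | zero => intro i hi; omega
  | succ N ih =>
    intro i hi
    have h1 := digit_spec x N
    have h2 := digit_spec x' N
    have h3 : ⌊2 ^ N * x⌋ = ⌊2 ^ N * x'⌋ := by omega
    rcases Nat.lt_succ_iff_lt_or_eq.1 hi with h4 | h4
    · exact ih h3 i h4
    · subst h4; omega

end Pool.Agent.TH325.Tak
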