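import Mathlib
import Pool.Agent.TH325.Tak.Branch

set_option autoImplicit false

/-! Rational levels of the Takagi function. -/

namespace Pool.Agent.TH325.Tak

open Set Filter Topology

/-- the level set -/
def L (y : ℝ) : Set ℝ := {x | x ∈ Icc (0 : ℝ) 1 ∧ T x = y}

theorem phi_neg (x : ℝ) : phi (-x) = phi x := by
  have h : ∀ x : ℝ, phi (-x) ≤ phi x := by
    intro x
    unfold phi
    calc |(-x) - round (-x)| ≤ |(-x) - ((-round x : ℤ) : ℝ)| := round_le (-x) (-round x)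
      _ = |x - round x| := by
        rw [← abs_neg]; congr 1; push_cast; ring
  refine le_antisymm (h x) ?_
  have := h (-x)
  rwa [neg_neg] at this

theorem T_symm (x : ℝ) : T (1 - x) = T x := by
  unfold T
  congr 1
  funext n
  have : (2 : ℝ) ^ n * (1 - x) = -(2 ^ n * x) + ((2 ^ n : ℤ) : ℝ) := by push_cast; ring
  rw [this, phi_add_int, phi_neg]

theorem floor_symm {x : ℝ} (hx : Irrational x) (i : ℕ) :
    ⌊2 ^ i * (1 - x)⌋ = 2 ^ i - 1 - ⌊2 ^ i * x⌋ := by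
  have h1 : ((⌊2 ^ i * x⌋ : ℤ) : ℝ) ≤ 2 ^ i * x := Int.floor_le _
  have h2 : 2 ^ i * x < (⌊2 ^ i * x⌋ : ℤ) + 1 := Int.lt_floor_add_one _
  have h3 : ((⌊2 ^ i * x⌋ : ℤ) : ℝ) ≠ 2 ^ i * x := by
    intro h
    apply hx
    refine ⟨(⌊2 ^ i * x⌋ : ℚ) / 2 ^ i, ?_⟩
    push_cast
    rw [h]
    field_simp
  have h4 : ((⌊2 ^ i * x⌋ : ℤ) : ℝ) < 2 ^ i * x := lt_of_le_of_ne h1 h3
  rw [Int.floor_eq_iff]
  push_cast
  constructor <;> nlinarith

theorem D_symm {x : ℝ} (hx : Irrational x) (j : ℕ) : D (1 - x) j = -D x j := by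
  have hd : ∀ i, digit (1 - x) i = 1 - digit x i := by
    intro i
    unfold digit
    rw [floor_symm hx]
    have h2 : (2 : ℤ) ^ (i + 1) = 2 * 2 ^ i := by ring
    rw [h2]
    generalize (2 : ℤ) ^ i = p
    omega
  unfold D
  rw [← Finset.sum_neg_distrib]
  refine Finset.sum_congr rfl fun i _ => ?_
  rw [hd]
  ring

theorem irr_lt {x : ℝ} (hx : x ∈ Icc (0 : ℝ) 1) (h : Irrational x) : x < 1 :=
  lt_of_le_of_ne hx.2 (by have := h.ne_one; exact this)

theorem irr_symm {x : ℝ} (h : Irrational x) : Irrational (1 - x) := by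
  have := h.ratCast_sub 1
  simpa using this

theorem mem_symm {x y : ℝ} (h : x ∈ L y) : 1 - x ∈ L y :=
  ⟨⟨by linarith [h.1.2], by linarith [h.1.1]⟩, by rw [T_symm]; exact h.2⟩

/-- the sign of a walk which stays away from zero is eventually constant -/
theorem escape_of_high {x : ℝ} (s₀ : ℕ) (hs : 1 ≤ s₀) (h : ∃ N, ∀ i, N ≤ i → (s₀ : ℤ) ≤ |D x i|)
    (k : ℕ) : ∃ N, k ≤ N ∧ ((∀ i, N ≤ i → (s₀ : ℤ) ≤ D x i) ∨ (∀ i, N ≤ i → D x i ≤ -(s₀ : ℤ))) := by
  obtain ⟨N, hN⟩ := h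
  refine ⟨max N k, le_max_right _ _, ?_⟩
  have hN' : ∀ i, max N k ≤ i → (s₀ : ℤ) ≤ |D x i| := fun i hi => hN i (le_trans (le_max_left _ _) hi)
  rcases le_abs.1 (hN' _ le_rfl) with h1 | h1
  · left
    intro i hi
    induction i, hi using Nat.le_induction with
    | base => exact h1
    | succ i hi ih =>
      have h2 := D_succ x i
      have h3 := (digit_spec x i).2
      rcases le_abs.1 (hN' (i + 1) (by omega)) with h4 | h4
      · exact h4
      · omega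
  · right
    intro i hi
    induction i, hi using Nat.le_induction with
    | base => omega
    | succ i hi ih =>
      have h2 := D_succ x i
      have h3 := (digit_spec x i).2
      rcases le_abs.1 (hN' (i + 1) (by omega)) with h4 | h4
      · omega
      · omega

theorem escape {x : ℝ} (h : Tendsto (fun j => |D x j|) atTop atTop) (s₀ : ℕ) (hs : 1 ≤ s₀)
    (k : ℕ) : ∃ N, k ≤ N ∧ ((∀ i, N ≤ i → (s₀ : ℤ) ≤ D x i) ∨ (∀ i, N ≤ i → D x i ≤ -(s₀ : ℤ))) :=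
  escape_of_high s₀ hs (eventually_atTop.1 (tendsto_atTop.1 h (s₀ : ℤ))) k

theorem sep {x x' : ℝ} (h0 : 0 ≤ x) (h1 : x < 1) (h0' : 0 ≤ x') (h1' : x' < 1)
    (hne : x ≠ x') (hT : T x = T x') {q k : ℕ} (hq : 0 < q) {z : ℤ}
    (hz : (q : ℝ) * 2 ^ k * T x = z) {N s₀ : ℕ} (hs0 : 1 ≤ s₀) (hkN : k ≤ N)
    (hD : ∀ i, N ≤ i → (s₀ : ℤ) ≤ D x i) (hqs : q < 2 ^ (s₀ + 1))
    (hfl : ⌊2 ^ N * x⌋ = ⌊2 ^ N * x'⌋) :
    ∃ j, N ≤ j ∧ ((digit x j = 0 ∧ digit x' j = 1) ∨ (digit x j = 1 ∧ digit x' j = 0)) ∧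
      2 * Y x j = D x j + 1 ∧ D x j = D x' j ∧ Y x j = Y x' j := by
  obtain ⟨j, hj, hlt, hDj, hYj⟩ := first_diff h0 h1 h0' h1' hne hT
  have hNj : N ≤ j := by
    by_contra hcon
    exact hj (digit_eq_of_floor N hfl j (by omega))
  have hz' : (q : ℝ) * 2 ^ k * Y x 0 = z := by rw [Y_zero h0 h1]; exact hz
  have hlat := Y_lattice hz' (hkN.trans hNj)
  have hlat' : ∃ w : ℤ, (q : ℝ) * Y x' j = w := by rw [← hYj]; exact hlat
  obtain ⟨s, hs⟩ : ∃ s : ℕ, D x j = s := ⟨(D x j).toNat, by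
    rw [Int.toNat_of_nonneg]; have := hD j hNj; omega⟩
  have hs1 : s₀ ≤ s := by have := hD j hNj; omega
  have hqs' : q < 2 ^ (s + 1) := hqs.trans_le (Nat.pow_le_pow_right (by norm_num) (by omega))
  have hd := (digit_spec x j).2
  have hd' := (digit_spec x' j).2
  rcases hd with hd | hd
  · have hd2 : digit x' j = 1 := by omega
    exact ⟨j, hNj, Or.inl ⟨hd, hd2⟩, branch hq hs (hDj ▸ hs) (by omega) hqs' hYj hd hd2 hlat, hDj, hYj⟩
  · have hd2 : digit x' j = 0 := by omega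
    have := branch hq (hDj ▸ hs) hs (by omega) hqs' hYj.symm hd2 hd hlat'
    rw [← hDj, ← hYj] at this
    exact ⟨j, hNj, Or.inr ⟨hd, hd2⟩, this, hDj, hYj⟩

/-- the points of a rational level whose walk stays high form a countable set -/
theorem countable_high {y : ℝ} {q k : ℕ} (hq : 0 < q) {z : ℤ} (hz : (q : ℝ) * 2 ^ k * y = z)
    {N s₀ : ℕ} (hs0 : 3 ≤ s₀) (hkN : k ≤ N) (hqs : q < 2 ^ (s₀ + 1)) :
    {x | x ∈ L y ∧ x < 1 ∧ ∀ i, N ≤ i → (s₀ : ℤ) ≤ D x i}.Countable := by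
  refine MapsTo.countable_of_injOn (f := fun x : ℝ => ⌊2 ^ N * x⌋) (t := univ)
    (fun _ _ => mem_univ _) ?_ (countable_univ)
  rintro x ⟨⟨hx, hTx⟩, hx1, hDx⟩ x' ⟨⟨hx', hTx'⟩, hx1', hDx'⟩ hfl
  by_contra hne
  obtain ⟨j, hNj, hd, hY, hDj, hYj⟩ := sep hx.1 hx1 hx'.1 hx1' hne (hTx.trans hTx'.symm) hq
    (by rw [hTx]; exact hz) (by omega) hkN hDx hqs hfl
  rcases hd with ⟨hd, _⟩ | ⟨_, hd⟩
  · have h1 := Y_step x j
    have h2 := D_succ x j
    rw [hd] at h1 h2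
    refine descend (j := j + 1) hs0 (fun i hi => hDx i (by omega)) ?_
    rw [h2]
    push_cast at h1 ⊢
    linarith
  · have h1 := Y_step x' j
    have h2 := D_succ x' j
    rw [hd] at h1 h2
    refine descend (x := x') (j := j + 1) hs0 (fun i hi => hDx' i (by omega)) ?_
    rw [h2]
    rw [hDj, hYj] at hY
    push_cast at h1 ⊢
    linarith

/-- the points of a rational level whose walk stays away from zero form a countable set -/
theorem countable_high_abs {y : ℝ} {q k : ℕ} (hq : 0 < q) {z : ℤ}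
    (hz : (q : ℝ) * 2 ^ k * y = z) {s₀ : ℕ} (hs0 : 3 ≤ s₀) (hqs : q < 2 ^ (s₀ + 1)) :
    {x | x ∈ L y ∧ ∃ N, ∀ i, N ≤ i → (s₀ : ℤ) ≤ |D x i|}.Countable := by
  have hA : (⋃ N : ℕ, {x | x ∈ L y ∧ x < 1 ∧ ∀ i, N + k ≤ i → (s₀ : ℤ) ≤ D x i}).Countable :=
    countable_iUnion fun N => countable_high hq hz hs0 (by omega) hqs
  have hB := hA.image fun x => 1 - x
  have hQ : (range ((↑) : ℚ → ℝ)).Countable := countable_range _
  refine ((hA.union hB).union hQ).mono ?_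
  rintro x ⟨hx, ht⟩
  by_cases hr : Irrational x
  · left
    obtain ⟨N, _, h | h⟩ := escape_of_high s₀ (by omega) ht 0
    · left
      rw [mem_iUnion]
      exact ⟨N, hx, irr_lt hx.1 hr, fun i hi => h i (by omega)⟩
    · right
      refine ⟨1 - x, ?_, by ring⟩
      rw [mem_iUnion]
      refine ⟨N, mem_symm hx, irr_lt (mem_symm hx).1 (irr_symm hr), fun i hi => ?_⟩
      rw [D_symm hr]
      have := h i (by omega)
      omega
  · right
    unfold Irrational at hr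
    exact not_not.1 hr

/-- the points of a rational level whose walk escapes form a countable set -/
theorem countable_escape (y : ℚ) :
    {x | x ∈ L y ∧ Tendsto (fun j => |D x j|) atTop atTop}.Countable := by
  have hq : 0 < y.den := y.den_pos
  have hz : ((y.den : ℕ) : ℝ) * 2 ^ 0 * ((y : ℚ) : ℝ) = (y.num : ℤ) := by
    rw [pow_zero, mul_one]
    have := Rat.den_mul_eq_num y
    exact_mod_cast this
  obtain ⟨s₀, hs0, hqs⟩ : ∃ s₀ : ℕ, 3 ≤ s₀ ∧ y.den < 2 ^ (s₀ + 1) := by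
    refine ⟨y.den + 3, by omega, ?_⟩
    calc y.den < 2 ^ y.den := Nat.lt_two_pow_self
      _ ≤ 2 ^ (y.den + 3 + 1) := Nat.pow_le_pow_right (by norm_num) (by omega)
  have hA : (⋃ N : ℕ, {x | x ∈ L (y : ℝ) ∧ x < 1 ∧ ∀ i, N ≤ i → (s₀ : ℤ) ≤ D x i}).Countable :=
    countable_iUnion fun N => countable_high hq hz hs0 (Nat.zero_le N) hqs
  have hB := hA.image fun x => 1 - x
  have hQ : (range ((↑) : ℚ → ℝ)).Countable := countable_range _
  refine ((hA.union hB).union hQ).mono ?_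
  rintro x ⟨hx, ht⟩
  by_cases hr : Irrational x
  · left
    obtain ⟨N, _, h | h⟩ := escape ht s₀ (by omega) 0
    · left
      rw [mem_iUnion]
      exact ⟨N, hx, irr_lt hx.1 hr, h⟩
    · right
      refine ⟨1 - x, ?_, by ring⟩
      rw [mem_iUnion]
      refine ⟨N, mem_symm hx, irr_lt (mem_symm hx).1 (irr_symm hr), fun i hi => ?_⟩
      rw [D_symm hr]
      have := h i hi
      omega
  · right
    unfold Irrational at hr
    exact not_not.1 hr

theorem infinite_of_not_escape {x : ℝ} (h : ¬ Tendsto (fun j => |D x j|) atTop atTop) :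
    ∃ M : ℕ, {j | |D x j| ≤ M}.Infinite := by
  rw [tendsto_atTop] at h
  push Not at h
  obtain ⟨b, hb⟩ := h
  refine ⟨b.toNat, ?_⟩
  rw [← Nat.frequently_atTop_iff_infinite]
  refine hb.mono fun j hj => ?_
  have : |D x j| < b := by simpa using hj
  have := Int.self_le_toNat b
  omega

theorem not_countable_of_not_escape {y : ℚ} {x : ℝ} (hx : x ∈ L y) (hi : Irrational x)
    (h : ¬ Tendsto (fun j => |D x j|) atTop atTop) : ¬ (L y).Countable := by
  obtain ⟨M, hM⟩ := infinite_of_not_escape h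
  have hx1 := irr_lt hx.1 hi
  have hz : ((y.den : ℕ) : ℝ) * 2 ^ 0 * Y x 0 = (y.num : ℤ) := by
    rw [pow_zero, mul_one, Y_zero hx.1.1 hx1, hx.2]
    have := Rat.den_mul_eq_num y
    exact_mod_cast this
  obtain ⟨j₀, hj₀⟩ := exists_infinite_state y.den_pos hz hM
  have := uncountable_level hx.1.1 hx1 hi hj₀
  rw [hx.2] at this
  exact this

theorem exists_not_escape {y : ℚ} (h : ¬ (L y).Countable) :
    ∃ x ∈ L y, Irrational x ∧ ¬ Tendsto (fun j => |D x j|) atTop atTop := by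
  by_contra hcon
  push Not at hcon
  apply h
  refine ((countable_escape y).union (countable_range ((↑) : ℚ → ℝ))).mono fun x hx => ?_
  by_cases hi : Irrational x
  · exact Or.inl ⟨hx, hcon x hx hi⟩
  · right
    unfold Irrational at hi
    exact not_not.1 hi

theorem exists_low {y : ℝ} (h : ¬ (L y).Countable) {q k : ℕ} (hq : 0 < q) {z : ℤ}
    (hz : (q : ℝ) * 2 ^ k * y = z) {s₀ : ℕ} (hs0 : 3 ≤ s₀) (hqs : q < 2 ^ (s₀ + 1)) :
    ∃ x ∈ L y, Irrational x ∧ {j | |D x j| < (s₀ : ℤ)}.Infinite := by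
  by_contra hcon
  push Not at hcon
  apply h
  refine ((countable_high_abs hq hz hs0 hqs).union
    (countable_range ((↑) : ℚ → ℝ))).mono fun x hx => ?_
  by_cases hi : Irrational x
  · left
    refine ⟨hx, ?_⟩
    obtain ⟨N, hN⟩ := (hcon x hx hi).bddAbove
    refine ⟨N + 1, fun i hi => ?_⟩
    by_contra hlt
    have := hN (show i ∈ {j | |D x j| < (s₀ : ℤ)} from not_le.1 hlt)
    omega
  · right
    unfold Irrational at hi
    exact not_not.1 hi

theorem not_escape_of_low {x : ℝ} {s₀ : ℕ} (h : {j | |D x j| < (s₀ : ℤ)}.Infinite) :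
    ¬ Tendsto (fun j => |D x j|) atTop atTop := by
  intro ht
  obtain ⟨N, hN⟩ := eventually_atTop.1 (tendsto_atTop.1 ht (s₀ : ℤ))
  obtain ⟨j, hj, hNj⟩ := h.exists_gt N
  have h1 := hN j hNj.le
  have h2 : |D x j| < (s₀ : ℤ) := hj
  omega

theorem escape_of_no_rat {y : ℚ} (hno : ∀ r : ℚ, (r : ℝ) ∉ L y) {x : ℝ} (hx : x ∈ L y) :
    Tendsto (fun j => |D x j|) atTop atTop := by
  by_contra h
  obtain ⟨M, hM⟩ := infinite_of_not_escape h
  obtain ⟨A, hA, hcard⟩ := hM.exists_subset_card_eq ((2 * M + 1) * (y.den * (M + 1) + 1) + 1)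
  obtain ⟨r, hr1, hr2⟩ := rational_of_many hx.1 (q := y.den) (k := 0) (M := M) y.den_pos
    ⟨y.num, by
      rw [pow_zero, mul_one, hx.2]
      have := Rat.den_mul_eq_num y
      exact_mod_cast this⟩ A (fun j hj => ⟨Nat.zero_le _, hA hj⟩) (by omega)
  exact hno r ⟨hr1, hr2.trans hx.2⟩

theorem irr_of_no_rat {y : ℚ} (hno : ∀ r : ℚ, (r : ℝ) ∉ L y) {x : ℝ} (hx : x ∈ L y) :
    Irrational x := by
  rintro ⟨r, hr⟩
  exact hno r (by rw [hr]; exact hx)

/-- no accumulation at a point whose walk stays high -/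
theorem isolated {y : ℚ} (hno : ∀ r : ℚ, (r : ℝ) ∉ L y) {x : ℝ} (hx : x ∈ L y) {N s₀ : ℕ}
    (hs0 : 1 ≤ s₀) (hD : ∀ i, N ≤ i → (s₀ : ℤ) ≤ D x i) (hqs : y.den < 2 ^ (s₀ + 1)) :
    ∃ U ∈ 𝓝 x, ∀ x' ∈ U ∩ L y, x' = x := by
  have hi := irr_of_no_rat hno hx
  have h1 : ((⌊2 ^ N * x⌋ : ℤ) : ℝ) ≤ 2 ^ N * x := Int.floor_le _
  have h2 : 2 ^ N * x < (⌊2 ^ N * x⌋ : ℤ) + 1 := Int.lt_floor_add_one _
  have h3 : ((⌊2 ^ N * x⌋ : ℤ) : ℝ) ≠ 2 ^ N * x := by
    intro h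
    apply hi
    refine ⟨(⌊2 ^ N * x⌋ : ℚ) / 2 ^ N, ?_⟩
    push_cast
    rw [h]
    field_simp
  have h4 : ((⌊2 ^ N * x⌋ : ℤ) : ℝ) < 2 ^ N * x := lt_of_le_of_ne h1 h3
  have hcont : Continuous fun t : ℝ => 2 ^ N * t := continuous_const.mul continuous_id
  refine ⟨{t | ((⌊2 ^ N * x⌋ : ℤ) : ℝ) < 2 ^ N * t ∧ 2 ^ N * t < (⌊2 ^ N * x⌋ : ℤ) + 1}, ?_, ?_⟩
  · exact ((isOpen_lt continuous_const hcont).inter (isOpen_lt hcont continuous_const)).mem_nhds
      ⟨h4, h2⟩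
  · rintro x' ⟨⟨g1, g2⟩, hx'⟩
    by_contra hne
    have hi' := irr_of_no_rat hno hx'
    have hfl : ⌊2 ^ N * x⌋ = ⌊2 ^ N * x'⌋ := by
      symm
      rw [Int.floor_eq_iff]
      exact ⟨g1.le, g2⟩
    obtain ⟨j, _, _, hY, _, _⟩ := sep (q := y.den) (k := 0) (z := y.num) hx.1.1
      (irr_lt hx.1 hi) hx'.1.1 (irr_lt hx'.1 hi')
      (Ne.symm hne) (hx.2.trans hx'.2.symm) y.den_pos (by
        rw [pow_zero, mul_one, hx.2]
        have := Rat.den_mul_eq_num y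
        exact_mod_cast this) hs0 (Nat.zero_le N) hD hqs hfl
    obtain ⟨r, hr1, hr2⟩ := rational_of_branch hx.1.1 (irr_lt hx.1 hi) hY
    exact hno r ⟨hr1, hr2.trans hx.2⟩

/-- a rational level without rational points is finite -/
theorem finite_of_no_rat {y : ℚ} (hno : ∀ r : ℚ, (r : ℝ) ∉ L y) : (L (y : ℝ)).Finite := by
  by_contra hinf
  have hinf' : (L (y : ℝ)).Infinite := hinf
  obtain ⟨s₀, hs0, hqs⟩ : ∃ s₀ : ℕ, 1 ≤ s₀ ∧ y.den < 2 ^ (s₀ + 1) := by
    refine ⟨y.den + 3, by omega, ?_⟩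
    calc y.den < 2 ^ y.den := Nat.lt_two_pow_self
      _ ≤ 2 ^ (y.den + 3 + 1) := Nat.pow_le_pow_right (by norm_num) (by omega)
  obtain ⟨x, hxI, hacc⟩ := hinf'.exists_accPt_of_subset_isCompact (isCompact_Icc (a := (0 : ℝ)) (b := 1))
    (fun x hx => hx.1)
  have hclosed : IsClosed (L (y : ℝ)) :=
    isClosed_Icc.inter (isClosed_eq T_cont continuous_const)
  have hx : x ∈ L (y : ℝ) := hclosed.closure_subset (mem_closure_iff_clusterPt.2 hacc.clusterPt)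
  have hi := irr_of_no_rat hno hx
  rw [accPt_iff_nhds] at hacc
  obtain ⟨N, _, h | h⟩ := escape (escape_of_no_rat hno hx) s₀ hs0 0
  · obtain ⟨U, hU, hU2⟩ := isolated hno hx hs0 h hqs
    obtain ⟨x', hx', hne⟩ := hacc U hU
    exact hne (hU2 x' hx')
  · obtain ⟨U, hU, hU2⟩ := isolated hno (mem_symm hx) hs0 (N := N) (fun i hi' => by
      rw [D_symm hi]; have := h i hi'; omega) hqs
    have hcont : Continuous fun t : ℝ => 1 - t := continuous_const.sub continuous_id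
    have hV : (fun t : ℝ => 1 - t) ⁻¹' U ∈ 𝓝 x := hcont.continuousAt.preimage_mem_nhds hU
    obtain ⟨x', hx', hne⟩ := hacc _ hV
    have h5 := hU2 (1 - x') ⟨hx'.1, mem_symm hx'.2⟩
    exact hne (by linarith)

theorem T_third : T (1 / 3) = 2 / 3 := by
  have h1 := T_half (1 / 3)
  have h2 := T_half (2 / 3)
  rw [phi_low (by norm_num) (by norm_num), show (2 : ℝ) * (1 / 3) = 2 / 3 by norm_num] at h1
  rw [phi_high (by norm_num) (by norm_num),
    show (2 : ℝ) * (2 / 3) = 1 / 3 + ((1 : ℤ) : ℝ) by norm_num, T_add_int] at h2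
  linarith

/-- levels between zero and two thirds are attained -/
theorem level_nonempty {y : ℝ} (h0 : 0 ≤ y) (h1 : y ≤ 2 / 3) : (L y).Nonempty := by
  have h := intermediate_value_Icc (a := (0 : ℝ)) (b := 1 / 3) (by norm_num) T_cont.continuousOn
  rw [T_zero, T_third] at h
  obtain ⟨x, hx, hxy⟩ := h ⟨h0, h1⟩
  exact ⟨x, ⟨hx.1, by linarith [hx.2]⟩, hxy⟩

/-- the second question implies the first -/
theorem Q2_imp_Q1
    (h : ∀ x ∈ Icc (0 : ℝ) 1, Irrational x → (∃ y : ℚ, T x = y) → ¬ (L (T x)).Countable) :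
    ∀ y : ℚ, (0 : ℝ) ≤ y → (y : ℝ) ≤ 2 / 3 → ∃ r : ℚ, (r : ℝ) ∈ L y := by
  intro y h0 h1
  by_contra hcon
  push Not at hcon
  obtain ⟨x, hx⟩ := level_nonempty h0 h1
  have h2 := h x hx.1 (irr_of_no_rat hcon hx) ⟨y, hx.2⟩
  rw [hx.2] at h2
  exact h2 (finite_of_no_rat hcon).countable

end Pool.Agent.TH325.Tak
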