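import Mathlib
import Pool.Agent.TH325.Tak.Level

set_option autoImplicit false

/-! Long repetitions in the digits of a point of a rational level. -/

namespace Pool.Agent.TH325.Tak

open Set Filter Topology

theorem c_add (x : ℝ) (j a : ℕ) : ∀ b : ℕ, c x j (a + b) = 2 ^ b * c x j a + c x (j + a) b := by
  intro b
  induction b with
  | zero => show c x j a = 2 ^ 0 * c x j a + 0; ring
  | succ b ih =>
    show 2 * c x j (a + b) + digit x (j + (a + b)) =
      2 ^ (b + 1) * c x j a + (2 * c x (j + a) b + digit x (j + a + b))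
    rw [ih, pow_succ, add_assoc]
    ring

theorem c_congr {x : ℝ} {i j : ℕ} : ∀ {m : ℕ}, (∀ l < m, digit x (i + l) = digit x (j + l)) →
    c x i m = c x j m := by
  intro m
  induction m with
  | zero => intro _; rfl
  | succ m ih =>
    intro h
    show 2 * c x i m + digit x (i + m) = 2 * c x j m + digit x (j + m)
    rw [ih fun l hl => h l (by omega), h m (by omega)]


theorem c_power {x : ℝ} {j p : ℕ} : ∀ {m : ℕ},
    (∀ i, i + p < m * p → digit x (j + i) = digit x (j + i + p)) →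
    (2 ^ p - 1) * c x j (m * p) = (2 ^ (m * p) - 1) * c x j p := by
  intro m
  induction m with
  | zero => intro _; simp [c]
  | succ m ih =>
    intro h
    have h1 := ih fun i hi => h i (by rw [Nat.succ_mul]; omega)
    have h2 : ∀ n, n ≤ m → c x (j + n * p) p = c x j p := by
      intro n
      induction n with
      | zero => intro _; simp
      | succ n ihn =>
        intro hn
        rw [← ihn (by omega)]
        apply c_congr
        intro l hl
        have h3 := h (n * p + l) (by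
          have : (n + 1) * p ≤ m * p := Nat.mul_le_mul_right p hn
          rw [Nat.succ_mul] at this ⊢
          omega)
        rw [show j + (n + 1) * p + l = j + (n * p + l) + p by ring, ← h3, add_assoc]
    have h4 := c_add x j (m * p) p
    rw [h2 m le_rfl] at h4
    rw [Nat.succ_mul, h4, pow_add]
    linear_combination (2 : ℤ) ^ p * h1

/-- a long repetition gives a rational point -/
theorem rational_of_power {x : ℝ} (h0 : 0 ≤ x) (h1 : x < 1) {q k : ℕ} (hq : 0 < q) {z : ℤ}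
    (hz : (q : ℝ) * 2 ^ k * T x = z) {j p m : ℕ} (hkj : k ≤ j) (hp : 0 < p)
    (hrep : ∀ i, i + p < m * p → digit x (j + i) = digit x (j + i + p))
    (hlong : (q : ℝ) * (2 ^ p - 1) ^ 2 * (|(D x (j + m * p) : ℝ)| + 1) < 2 ^ (m * p)) :
    ∃ r : ℚ, (r : ℝ) ∈ Icc (0 : ℝ) 1 ∧ T r = T x := by
  have hc0 := c_nonneg x j p
  have hc1 := c_lt x j p
  have hpp : (1 : ℤ) < 2 ^ p := one_lt_pow₀ (by norm_num) (by omega)
  have hpR : (1 : ℝ) < 2 ^ p := by exact_mod_cast hpp
  have hc0R : (0 : ℝ) ≤ c x j p := by exact_mod_cast hc0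
  have hc1R : (c x j p : ℝ) ≤ 2 ^ p - 1 := by
    have : c x j p ≤ 2 ^ p - 1 := by omega
    exact_mod_cast this
  have hpos : (0 : ℝ) < 2 ^ p - 1 := by linarith
  obtain ⟨τ, hτ⟩ : ∃ τ : ℝ, τ = (c x j p : ℝ) / (2 ^ p - 1) := ⟨_, rfl⟩
  have hτc : τ * (2 ^ p - 1) = c x j p := by rw [hτ]; field_simp
  have ht0 : 0 ≤ τ := by rw [hτ]; exact div_nonneg hc0R hpos.le
  have ht1 : τ ≤ 1 := by rw [hτ, div_le_one hpos]; exact hc1R
  have hpow : ((2 : ℝ) ^ p - 1) * c x j (m * p) = (2 ^ (m * p) - 1) * c x j p := by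
    exact_mod_cast c_power hrep
  have hcm : (c x j (m * p) : ℝ) = (2 ^ (m * p) - 1) * τ := by
    apply mul_left_cancel₀ hpos.ne'
    rw [hpow, ← hτc]
    ring
  have hfix : ((c x j (m * p) : ℝ) + τ) / 2 ^ (m * p) = τ := by
    rw [hcm]
    field_simp
    ring
  have hfix1 : ((c x j p : ℝ) + τ) / 2 ^ p = τ := by
    rw [← hτc]
    field_simp
    ring
  -- the value at the fixed point is in a lattice
  obtain ⟨n1, hn1⟩ := Y_int x j
  obtain ⟨n2, hn2⟩ := Y_int x (j + p)
  have hk1 := key x j p τ ht0 ht1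
  rw [hfix1] at hk1
  have hY12 : 2 ^ p * Y x j - Y x (j + p) = ((n2 - 2 ^ p * n1 : ℤ) : ℝ) := by
    rw [hn1, hn2, pow_add]
    push_cast
    ring
  have hT : T τ * (2 ^ p - 1) ^ 2 =
      (((D x (j + p) - 2 ^ p * D x j) * c x j p + (n2 - 2 ^ p * n1) * (2 ^ p - 1) : ℤ) : ℝ) := by
    have e : (D x j * τ + T τ - Y x j) * 2 ^ p = D x (j + p) * τ + T τ - Y x (j + p) := by
      rw [hk1]; field_simp
    push_cast at hY12 ⊢
    rw [← hτc]
    have e2 : T τ * (2 ^ p - 1) = (D x (j + p) - 2 ^ p * D x j) * τ + (n2 - 2 ^ p * n1) := by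
      linarith
    linear_combination (2 ^ p - 1) * e2
  have hz' : (q : ℝ) * 2 ^ k * Y x 0 = z := by rw [Y_zero h0 h1]; exact hz
  obtain ⟨w, hw⟩ := Y_lattice hz' hkj
  obtain ⟨u, hu⟩ : ∃ u : ℤ, (q : ℝ) * (2 ^ p - 1) ^ 2 * (D x j * τ + T τ - Y x j) = u := by
    refine ⟨q * (D x j * c x j p * (2 ^ p - 1)) + q * ((D x (j + p) - 2 ^ p * D x j) * c x j p +
      (n2 - 2 ^ p * n1) * (2 ^ p - 1)) - (2 ^ p - 1) ^ 2 * w, ?_⟩
    push_cast at hT ⊢
    rw [← hw, ← hT, ← hτc]
    ring
  have hk2 := key x j (m * p) τ ht0 ht1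
  rw [hfix] at hk2
  have habs : |D x (j + m * p) * τ + T τ - Y x (j + m * p)| ≤ |(D x (j + m * p) : ℝ)| + 1 := by
    have e : D x (j + m * p) * τ + T τ - Y x (j + m * p) =
        D x (j + m * p) * (τ - tl x (j + m * p)) + (T τ - T (tl x (j + m * p))) := by
      unfold Y; ring
    rw [e]
    refine (abs_add_le _ _).trans (add_le_add ?_ ?_)
    · rw [abs_mul]
      refine mul_le_of_le_one_right (abs_nonneg _) ?_
      rw [abs_le]
      constructor <;> linarith [tl_nonneg x (j + m * p), tl_lt x (j + m * p)]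
    · rw [abs_le]
      constructor <;> linarith [T_nonneg τ, T_le τ, T_nonneg (tl x (j + m * p)),
        T_le (tl x (j + m * p))]
  have hlt : |(u : ℝ)| < 1 := by
    rw [← hu, hk2, abs_mul, abs_of_nonneg (show (0 : ℝ) ≤ q * (2 ^ p - 1) ^ 2 by positivity),
      abs_div, abs_of_pos (show (0 : ℝ) < 2 ^ (m * p) by positivity), ← mul_div_assoc,
      div_lt_one (by positivity)]
    exact lt_of_le_of_lt (mul_le_mul_of_nonneg_left habs (by positivity)) hlong
  have hu0 : u = 0 := by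
    have : |u| < 1 := by exact_mod_cast hlt
    exact Int.abs_lt_one_iff.1 this
  rw [hu0, Int.cast_zero] at hu
  have hne : (q : ℝ) * (2 ^ p - 1) ^ 2 ≠ 0 := by positivity
  have hfin : (D x j : ℝ) * τ + T τ - Y x j = 0 := by
    rcases mul_eq_zero.1 hu with h | h
    · exact absurd h hne
    · exact h
  have h4 := key x 0 j τ ht0 ht1
  have hD0 : D x 0 = 0 := by simp [D]
  rw [zero_add, hfin, zero_div, hD0, Int.cast_zero, zero_mul, zero_add, Y_zero h0 h1] at h4
  refine ⟨((c x 0 j : ℚ) + (c x j p : ℚ) / (2 ^ p - 1)) / 2 ^ j, ?_, ?_⟩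
  · push_cast
    rw [← hτ]
    exact ret_mem (c_nonneg x 0 j) (c_lt x 0 j) ht0 ht1
  · push_cast
    rw [← hτ]
    linarith

end Pool.Agent.TH325.Tak
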