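import Mathlib
import Pool.Agent.TH325.Tak.Power

set_option autoImplicit false

/-! Escaping irrational points of a rational level are isolated; counting with the period. -/

namespace Pool.Agent.TH325.Tak

open Set Filter Topology

/-- no accumulation at an irrational point whose walk stays high -/
theorem isolated_high {y : ℚ} {x : ℝ} (hx : x ∈ L y) (hi : Irrational x) {N s₀ : ℕ}
    (hs0 : 3 ≤ s₀) (hD : ∀ i, N ≤ i → (s₀ : ℤ) ≤ D x i) (hqs : y.den < 2 ^ (s₀ + 1)) :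
    ∃ U ∈ 𝓝 x, ∀ x' ∈ U ∩ L y, x' = x := by
  have h1 : ((⌊2 ^ N * x⌋ : ℤ) : ℝ) ≤ 2 ^ N * x := Int.floor_le _
  have h2 : 2 ^ N * x < (⌊2 ^ N * x⌋ : ℤ) + 1 := Int.lt_floor_add_one _
  have h3 : ((⌊2 ^ N * x⌋ : ℤ) : ℝ) ≠ 2 ^ N * x := by
    intro h
    apply hi
    refine ⟨(⌊2 ^ N * x⌋ : ℚ) / 2 ^ N, ?_⟩
    push_cast
    rw [h]
    field_simp
  have h4 : ((⌊2 ^ N * x⌋ : ℤ) : ℝ) < 2 ^ N * x := lt_of_le_of_ne h1 h3
  have hcont : Continuous fun t : ℝ => 2 ^ N * t := continuous_const.mul continuous_id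
  refine ⟨{t | ((⌊2 ^ N * x⌋ : ℤ) : ℝ) < 2 ^ N * t ∧ 2 ^ N * t < (⌊2 ^ N * x⌋ : ℤ) + 1}, ?_, ?_⟩
  · exact ((isOpen_lt continuous_const hcont).inter (isOpen_lt hcont continuous_const)).mem_nhds
      ⟨h4, h2⟩
  · rintro x' ⟨⟨g1, g2⟩, hx'⟩
    by_contra hne
    have hfl : ⌊2 ^ N * x⌋ = ⌊2 ^ N * x'⌋ := by
      symm
      rw [Int.floor_eq_iff]
      exact ⟨g1.le, g2⟩
    have hx1 := irr_lt hx.1 hi
    have hx1' : x' < 1 := by
      refine lt_of_le_of_ne hx'.1.2 fun h => ?_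
      rw [h, mul_one] at hfl
      have e1 : ⌊(2 : ℝ) ^ N⌋ = 2 ^ N := by
        have : ((2 : ℝ) ^ N) = ((2 ^ N : ℤ) : ℝ) := by push_cast; rfl
        rw [this, Int.floor_intCast]
      rw [e1] at hfl
      have e2 : (2 : ℝ) ^ N * x < 2 ^ N := by
        have : (0 : ℝ) < 2 ^ N := by positivity
        nlinarith
      rw [hfl] at h1
      push_cast at h1
      linarith
    obtain ⟨j, hNj, hd, hY, _, _⟩ := sep (q := y.den) (k := 0) (z := y.num) hx.1.1
      hx1 hx'.1.1 hx1' (Ne.symm hne) (hx.2.trans hx'.2.symm) y.den_pos (by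
        rw [pow_zero, mul_one, hx.2]
        have := Rat.den_mul_eq_num y
        exact_mod_cast this) (by omega) (Nat.zero_le N) hD hqs hfl
    have e1 := Y_step x j
    have e2 := D_succ x j
    rcases hd with ⟨hd, _⟩ | ⟨hd, _⟩
    · rw [hd] at e1 e2
      refine descend (j := j + 1) hs0 (fun i hi => hD i (by omega)) ?_
      rw [e2]
      push_cast at e1 ⊢
      linarith
    · rw [hd] at e1 e2
      have e3 : Y x (j + 1) = 0 := by push_cast at e1; linarith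
      have e4 : (s₀ : ℤ) ≤ D x (j + 1) := hD (j + 1) (by omega)
      have e5 : (0 : ℝ) < D x (j + 1) := by
        have : (0 : ℤ) < D x (j + 1) := by omega
        exact_mod_cast this
      unfold Y at e3
      have e6 := T_nonneg (tl x (j + 1))
      have e7 := tl_nonneg x (j + 1)
      have e8 : tl x (j + 1) = 0 := by
        rcases e7.eq_or_lt with h | h
        · exact h.symm
        · have := mul_pos e5 h
          linarith
      apply hi
      unfold tl Int.fract at e8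
      refine ⟨(⌊2 ^ (j + 1) * x⌋ : ℚ) / 2 ^ (j + 1), ?_⟩
      push_cast
      rw [show ((⌊2 ^ (j + 1) * x⌋ : ℤ) : ℝ) = 2 ^ (j + 1) * x by linarith]
      field_simp

/-- an irrational point of a rational level whose walk escapes is isolated in the level -/
theorem not_accPt {y : ℚ} {x : ℝ} (hx : x ∈ L y) (hi : Irrational x)
    (ht : Tendsto (fun j => |D x j|) atTop atTop) : ¬ AccPt x (𝓟 (L (y : ℝ))) := by
  intro hacc
  obtain ⟨s₀, hs0, hqs⟩ : ∃ s₀ : ℕ, 3 ≤ s₀ ∧ y.den < 2 ^ (s₀ + 1) := by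
    refine ⟨y.den + 3, by omega, ?_⟩
    calc y.den < 2 ^ y.den := Nat.lt_two_pow_self
      _ ≤ 2 ^ (y.den + 3 + 1) := Nat.pow_le_pow_right (by norm_num) (by omega)
  rw [accPt_iff_nhds] at hacc
  obtain ⟨N, _, h | h⟩ := escape ht s₀ (by omega) 0
  · obtain ⟨U, hU, hU2⟩ := isolated_high hx hi hs0 h hqs
    obtain ⟨x', hx', hne⟩ := hacc U hU
    exact hne (hU2 x' hx')
  · obtain ⟨U, hU, hU2⟩ := isolated_high (mem_symm hx) (irr_symm hi) hs0 (N := N)
      (fun i hi' => by rw [D_symm hi]; have := h i hi'; omega) hqs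
    have hcont : Continuous fun t : ℝ => 1 - t := continuous_const.sub continuous_id
    have hV : (fun t : ℝ => 1 - t) ⁻¹' U ∈ 𝓝 x := hcont.continuousAt.preimage_mem_nhds hU
    obtain ⟨x', hx', hne⟩ := hacc _ hV
    have h5 := hU2 (1 - x') ⟨hx'.1, mem_symm hx'.2⟩
    exact hne (by linarith)

/-- the difference of two states at indices in the same class modulo the period is an integer -/
theorem Y_sub_int {x : ℝ} {p k : ℕ} {z : ℤ} (hz : (2 ^ p - 1) * 2 ^ k * Y x 0 = (z : ℝ)) {i : ℕ}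
    (hi : k ≤ i) (n : ℕ) : ∃ w : ℤ, Y x (i + p * n) - Y x i = w := by
  obtain ⟨a, ha⟩ := Y_int x i
  obtain ⟨b, hb⟩ := Y_int x (i + p * n)
  obtain ⟨l, rfl⟩ := Nat.exists_eq_add_of_le hi
  obtain ⟨g, hg⟩ : ∃ g : ℤ, (2 : ℤ) ^ (p * n) - 1 = (2 ^ p - 1) * g := by
    rw [pow_mul]
    have := sub_dvd_pow_sub_pow ((2 : ℤ) ^ p) 1 n
    rw [one_pow] at this
    exact this
  have hg' : (2 : ℝ) ^ (p * n) - 1 = (2 ^ p - 1) * g := by exact_mod_cast hg
  refine ⟨2 ^ l * g * z - b + a, ?_⟩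
  push_cast
  rw [ha, hb, ← hz, pow_add, pow_add]
  linear_combination (2 ^ k * 2 ^ l * Y x 0) * hg'

/-- many indices with a small walk give a rational point (count with the period) -/
theorem rational_of_many' {x : ℝ} (hx : x ∈ Icc (0 : ℝ) 1) {p k M : ℕ} (hp : 0 < p)
    (hT : ∃ z : ℤ, (2 ^ p - 1) * 2 ^ k * T x = (z : ℝ)) (A : Finset ℕ)
    (hA : ∀ j ∈ A, k ≤ j ∧ |D x j| ≤ M) (hcard : p * (2 * M + 1) * (M + 2) < A.card) :
    ∃ r : ℚ, (r : ℝ) ∈ Icc (0 : ℝ) 1 ∧ T r = T x := by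
  rcases eq_or_lt_of_le hx.2 with h1 | h1
  · exact ⟨1, by simp, by rw [h1]; simp⟩
  obtain ⟨z, hz⟩ := hT
  rw [← Y_zero hx.1 h1] at hz
  have hcard' : (Finset.range p ×ˢ (Finset.Icc (-(M : ℤ)) M ×ˢ Finset.Icc (0 : ℤ) (M + 1))).card <
      A.card := by
    refine lt_of_eq_of_lt ?_ hcard
    rw [Finset.card_product, Finset.card_product, Int.card_Icc, Int.card_Icc, Finset.card_range]
    have e1 : ((M : ℤ) + 1 - -(M : ℤ)).toNat = 2 * M + 1 := by omega
    have e2 : ((M : ℤ) + 1 + 1 - 0).toNat = M + 2 := by omega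
    rw [e1, e2, mul_assoc]
  obtain ⟨i, hi, j, hj, hne, heq⟩ := Finset.exists_ne_map_eq_of_card_lt_of_maps_to hcard'
    (f := fun j => ((j % p, (D x j, ⌊Y x j⌋ - min (D x j) 0)) : ℕ × (ℤ × ℤ)))
    (fun j hj => by
      obtain ⟨h2, h3⟩ := Y_bounds x j
      obtain ⟨_, h4⟩ := hA j hj
      rw [abs_le] at h4
      have h5 : min (D x j) 0 ≤ ⌊Y x j⌋ := Int.le_floor.2 (by exact_mod_cast h2)
      have h6 : ((⌊Y x j⌋ : ℤ) : ℝ) ≤ ((max (D x j) 0 + 1 : ℤ) : ℝ) := by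
        refine (Int.floor_le _).trans ?_
        exact_mod_cast h3
      have h7 : ⌊Y x j⌋ ≤ max (D x j) 0 + 1 := by exact_mod_cast h6
      simp only [Finset.mem_coe, Finset.mem_product, Finset.mem_range, Finset.mem_Icc]
      refine ⟨Nat.mod_lt _ hp, ⟨h4.1, h4.2⟩, by omega, ?_⟩
      rcases le_total 0 (D x j) with h | h
      · rw [max_eq_left h] at h7; rw [min_eq_right h]; omega
      · rw [max_eq_right h] at h7; rw [min_eq_left h]; omega)
  simp only [Prod.mk.injEq] at heq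
  obtain ⟨hm, hDeq, hYeq⟩ := heq
  rw [hDeq] at hYeq
  have hfl : ⌊Y x i⌋ = ⌊Y x j⌋ := by linarith
  have main : ∀ i j : ℕ, i ∈ A → j ∈ A → i < j → i % p = j % p → D x i = D x j →
      ⌊Y x i⌋ = ⌊Y x j⌋ → ∃ r : ℚ, (r : ℝ) ∈ Icc (0 : ℝ) 1 ∧ T r = T x := by
    intro i j hi hj hlt hm hDeq hfl
    obtain ⟨n, hn⟩ : ∃ n, j = i + p * n := by
      have h2 : p ∣ j - i := (Nat.modEq_iff_dvd' hlt.le).1 hm
      obtain ⟨n, hn⟩ := h2
      exact ⟨n, by omega⟩
    obtain ⟨w, hw⟩ := Y_sub_int hz (hA i hi).1 n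
    rw [← hn] at hw
    have hw0 : w = 0 := by
      have h2 := Int.floor_le (Y x i)
      have h3 := Int.lt_floor_add_one (Y x i)
      have h4 := Int.floor_le (Y x j)
      have h5 := Int.lt_floor_add_one (Y x j)
      rw [← hfl] at h4 h5
      have h6 : |(w : ℝ)| < 1 := by
        rw [← hw, abs_lt]
        constructor <;> linarith
      have h7 : |w| < 1 := by exact_mod_cast h6
      exact Int.abs_lt_one_iff.1 h7
    rw [hw0, Int.cast_zero] at hw
    refine rational_of_repeat hx.1 h1 (j := i) (m := j - i) (by omega) ?_ ?_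
    · rw [show i + (j - i) = j by omega]; exact hDeq.symm
    · rw [show i + (j - i) = j by omega]; linarith
  rcases lt_or_gt_of_ne hne with h | h
  · exact main i j hi hj h hm hDeq hfl
  · exact main j i hj hi h hm.symm hDeq.symm hfl.symm

end Pool.Agent.TH325.Tak
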